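import Pool.Agent.Q21.FPc.Main

/-!
# Frobenius parabolic complements to the nilpotent orbit `O(3,2,...)` in `sl_n`

For every `n ≥ 3` there are an element `e` of the nilpotent orbit `O(λ)` of `sl_n`,
`λ = (3, 2, ..., 2)` or `(3, 2, ..., 2, 1)`, and a Frobenius parabolic subalgebra `p` of minimal
dimension among all Frobenius parabolic subalgebras with `sl_n = sl_n^e ⊕ p`.
-/

set_option autoImplicit false

open Matrix Finset

namespace Pool.Agent.Results.MP_8024d7_al.ParabolicComplements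

open Pool.Agent.Q21.FPc

variable {K : Type*} [Field K] {n : ℕ}

/-- The nilpotent Jordan matrix with the blocks `3, 2, ..., 2` (`n` odd) or `3, 2, ..., 2, 1`
(`n` even): `v_0 ↦ v_1 ↦ v_2 ↦ 0`, `v_c ↦ v_(c+1) ↦ 0` for odd `c` with `3 ≤ c ≤ n - 2`, and
`v_(n-1) ↦ 0` for even `n`. -/
def jordan (n : ℕ) (K : Type*) [Field K] : Matrix (Fin n) (Fin n) K := fun r c =>
  if (r : ℕ) = c + 1 ∧ ((c : ℕ) = 0 ∨ (c : ℕ) = 1 ∨ (3 ≤ (c : ℕ) ∧ (c : ℕ) % 2 = 1)) then 1 else 0

/-- `h` is the inverse of `g` -/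
def Inverse (g h : Matrix (Fin n) (Fin n) K) : Prop := g * h = 1 ∧ h * g = 1

/-- `e` is in the orbit `O(λ)`: it is conjugate to the Jordan matrix. -/
def InOrbit (e : Matrix (Fin n) (Fin n) K) : Prop :=
  ∃ g h : Matrix (Fin n) (Fin n) K, Inverse g h ∧ e = g * jordan n K * h

/-- `p` is a Lie subalgebra of `sl_n`. -/
def IsSubalgebra (p : Submodule K (Matrix (Fin n) (Fin n) K)) : Prop :=
  (∀ x ∈ p, Matrix.trace x = 0) ∧ ∀ x ∈ p, ∀ y ∈ p, x * y - y * x ∈ p

/-- `y` belongs to the Borel subalgebra given by the invertible matrix `g` (with the inverse `h`):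
`y` is in `sl_n` and `g⁻¹ y g` is upper triangular. -/
def InBorel (g h y : Matrix (Fin n) (Fin n) K) : Prop :=
  Matrix.trace y = 0 ∧ ∀ i j : Fin n, j < i → (h * y * g) i j = 0

/-- `p` is a parabolic subalgebra of `sl_n`: it contains a Borel subalgebra. -/
def IsParabolic (p : Submodule K (Matrix (Fin n) (Fin n) K)) : Prop :=
  IsSubalgebra p ∧ ∃ g h : Matrix (Fin n) (Fin n) K, Inverse g h ∧ ∀ y, InBorel g h y → y ∈ p

/-- `p` is a Frobenius Lie algebra (of index `0`): for some linear form `ξ` only `x = 0` in `p`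
satisfies `ξ([x, y]) = 0` for all `y` in `p`. -/
def IsFrobenius (p : Submodule K (Matrix (Fin n) (Fin n) K)) : Prop :=
  ∃ ξ : Matrix (Fin n) (Fin n) K →ₗ[K] K, ∀ x ∈ p, (∀ y ∈ p, ξ (x * y - y * x) = 0) → x = 0

/-- `p` is a Frobenius parabolic subalgebra of `sl_n` of least dimension. -/
def IsMinimalFrobeniusParabolic (p : Submodule K (Matrix (Fin n) (Fin n) K)) : Prop :=
  IsParabolic p ∧ IsFrobenius p ∧ ∀ q : Submodule K (Matrix (Fin n) (Fin n) K), IsParabolic q →
    IsFrobenius q → Module.finrank K p ≤ Module.finrank K q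

/-- `sl_n` is the direct sum of the centraliser of `e` in `sl_n` and of the subspace `p` of
`sl_n`: every `z` in `sl_n` is in exactly one way the sum of some `x` in `p` and of a matrix
`z - x` which commutes with `e`. -/
def IsComplement (e : Matrix (Fin n) (Fin n) K) (p : Submodule K (Matrix (Fin n) (Fin n) K)) :
    Prop :=
  ∀ z, Matrix.trace z = 0 → ∃! x, x ∈ p ∧ e * (z - x) = (z - x) * e

/-! ### The subalgebra -/

/-- the parabolic subalgebra -/
def pa (n : ℕ) (K : Type*) [Field K] : Submodule K (Matrix (Fin n) (Fin n) K) :=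
  supp K (SP n) ⊓ LinearMap.ker (Matrix.traceLinearMap (Fin n) K K)

theorem mem_pa (x : Matrix (Fin n) (Fin n) K) : x ∈ pa n K ↔ InP x ∧ Matrix.trace x = 0 := by
  rw [inP_iff]; exact Iff.rfl

theorem sub_pa : IsSubalgebra (pa n K) := by
  refine ⟨fun x hx => ((mem_pa x).1 hx).2, fun x hx y hy => ?_⟩
  rw [mem_pa] at *
  refine ⟨inP_sub (inP_mul hx.1 hy.1) (inP_mul hy.1 hx.1), ?_⟩
  rw [Matrix.trace_sub, Matrix.trace_mul_comm, sub_self]

theorem scalar_zero [CharZero K] (hn : 3 ≤ n) (t : K)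
    (h : Matrix.trace (t • (1 : Matrix (Fin n) (Fin n) K)) = 0) : t = 0 := by
  rw [Matrix.trace_smul, Matrix.trace_one, Fintype.card_fin, smul_eq_mul] at h
  have : (n : K) ≠ 0 := Nat.cast_ne_zero.2 (by omega)
  exact (mul_eq_zero.1 h).resolve_right this

theorem disj [CharZero K] (hn : 3 ≤ n) (x : Matrix (Fin n) (Fin n) K) (h1 : x ∈ pa n K)
    (h2 : x * E K n = E K n * x) : x = 0 := by
  rw [mem_pa] at h1
  obtain ⟨t, ht⟩ := scalar hn x h1.1 h2
  have h3 : Matrix.trace x = 0 := h1.2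
  rw [ht] at h3
  rw [ht, scalar_zero hn t h3, zero_smul]

/-- the traceless part -/
theorem trace_shift [CharZero K] (hn : 3 ≤ n) (y : Matrix (Fin n) (Fin n) K) :
    Matrix.trace (y - (Matrix.trace y / n) • (1 : Matrix (Fin n) (Fin n) K)) = 0 := by
  have : (n : K) ≠ 0 := Nat.cast_ne_zero.2 (by omega)
  rw [Matrix.trace_sub, Matrix.trace_smul, Matrix.trace_one, Fintype.card_fin, smul_eq_mul,
    div_mul_cancel₀ _ this, sub_self]

theorem shift_mem [CharZero K] (hn : 3 ≤ n) {u : Matrix (Fin n) (Fin n) K}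
    (hu : u ∈ supp K (SP n)) :
    u - (Matrix.trace u / n) • (1 : Matrix (Fin n) (Fin n) K) ∈ pa n K :=
  (mem_pa _).2 ⟨inP_sub ((inP_iff u).2 hu) (inP_smul_one _), trace_shift hn u⟩

theorem compl [CharZero K] (hn : 3 ≤ n) : IsComplement (E K n) (pa n K) := by
  intro z hz
  have h1 : z ∈ supp K (SP n) ⊔ cent K n := by rw [(dims hn).1]; exact Submodule.mem_top
  obtain ⟨u, hu, v, hv, huv⟩ := Submodule.mem_sup.1 h1
  have hv' : v * E K n = E K n * v := hv
  have h4 : z - (u - (Matrix.trace u / n) • (1 : Matrix (Fin n) (Fin n) K)) =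
      v + (Matrix.trace u / n) • (1 : Matrix (Fin n) (Fin n) K) := by
    rw [← huv]; abel
  refine ⟨u - (Matrix.trace u / n) • (1 : Matrix (Fin n) (Fin n) K), ⟨shift_mem hn hu, ?_⟩, ?_⟩
  · rw [h4, add_mul, mul_add, hv', smul_mul_assoc, mul_smul_comm, one_mul, mul_one]
  · rintro x ⟨hx, hxc⟩
    have h5 : E K n * (z - (u - (Matrix.trace u / n) • (1 : Matrix (Fin n) (Fin n) K))) =
        (z - (u - (Matrix.trace u / n) • (1 : Matrix (Fin n) (Fin n) K))) * E K n := by
      rw [h4, add_mul, mul_add, hv', smul_mul_assoc, mul_smul_comm, one_mul, mul_one]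
    refine sub_eq_zero.1 (disj hn _ (sub_mem hx (shift_mem hn hu)) ?_)
    have h6 : x - (u - (Matrix.trace u / n) • (1 : Matrix (Fin n) (Fin n) K)) =
        (z - (u - (Matrix.trace u / n) • (1 : Matrix (Fin n) (Fin n) K))) - (z - x) := by abel
    rw [h6, sub_mul, mul_sub, ← h5, ← hxc]

theorem trace_eq_zero_imp (D : Matrix (Fin n) (Fin n) K)
    (h : ∀ y, Matrix.trace (D * y) = 0) : D = 0 := by
  refine Matrix.ext fun i j => ?_
  have := h (Matrix.single j i 1)
  rw [Matrix.trace_mul_single] at this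
  simpa using this

theorem frob [CharZero K] (hn : 3 ≤ n) : IsFrobenius (pa n K) := by
  refine ⟨Matrix.traceLinearMap (Fin n) K K ∘ₗ LinearMap.mulLeft K (E K n), fun x hxp hx => ?_⟩
  have h1 : ∀ y : Matrix (Fin n) (Fin n) K,
      Matrix.trace ((E K n * x - x * E K n) * y) = Matrix.trace (E K n * (x * y - y * x)) := by
    intro y
    have e1 : (E K n * x - x * E K n) * y = E K n * x * y - x * (E K n * y) := by
      noncomm_ring
    have e2 : E K n * (x * y - y * x) = E K n * x * y - E K n * y * x := by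
      noncomm_ring
    rw [e1, e2, Matrix.trace_sub, Matrix.trace_sub, Matrix.trace_mul_comm x (E K n * y)]
  have h2 : E K n * x - x * E K n = 0 := by
    refine trace_eq_zero_imp _ fun y => ?_
    have h3 : y ∈ supp K (SP n) ⊔ cent K n := by rw [(dims hn).1]; exact Submodule.mem_top
    obtain ⟨u, hu, v, hv, huv⟩ := Submodule.mem_sup.1 h3
    have h4 : Matrix.trace ((E K n * x - x * E K n) * v) = 0 := by
      have e1 : (E K n * x - x * E K n) * v = E K n * (x * v) - x * (E K n * v) := by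
        noncomm_ring
      rw [e1, ← show v * E K n = E K n * v from hv, ← mul_assoc x, Matrix.trace_sub,
        Matrix.trace_mul_comm (E K n) (x * v), sub_self]
    have h5 : Matrix.trace (E K n * x - x * E K n) = 0 := by
      rw [Matrix.trace_sub, Matrix.trace_mul_comm, sub_self]
    have h7 : Matrix.trace (E K n * (x * (u - (Matrix.trace u / n) • 1) -
        (u - (Matrix.trace u / n) • 1) * x)) = 0 := hx _ (shift_mem hn hu)
    rw [← h1, mul_sub, Matrix.trace_sub, mul_smul_comm, mul_one, Matrix.trace_smul, h5, smul_zero,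
      sub_zero] at h7
    rw [← huv, mul_add, Matrix.trace_add, h7, h4, add_zero]
  exact disj hn x hxp (sub_eq_zero.1 h2).symm

theorem parab : IsParabolic (pa n K) := by
  refine ⟨sub_pa, 1, 1, ⟨one_mul 1, one_mul 1⟩, fun y hy => ?_⟩
  rw [mem_pa]
  refine ⟨inP_upper fun r c h => ?_, hy.1⟩
  have := hy.2 r c h
  rwa [one_mul, mul_one] at this

/-! ### The orbit of `e` -/

/-- the Jordan basis of `E` -/
def gm (n : ℕ) (K : Type*) [Field K] (o : Fin n) : Matrix (Fin n) (Fin n) K := fun r c =>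
  if (c : ℕ) = 0 then (if (r : ℕ) = 0 then 1 else 0)
  else if (c : ℕ) = 1 then E K n r o
  else if (c : ℕ) = 2 then (E K n * E K n) r o
  else if (c : ℕ) % 2 = 1 then (if 2 * (r : ℕ) = c + 1 then 1 else 0)
  else (if 2 * (n - (r : ℕ)) = c then 1 else 0)

theorem cl_le (r : ℕ) : cl n r ≤ 2 := by unfold cl; split_ifs <;> omega

theorem EE_supp (r c : Fin n) (h : ¬ cl n c + 1 < cl n r) : (E K n * E K n) r c = 0 := by
  rw [Matrix.mul_apply]
  refine Finset.sum_eq_zero fun m _ => ?_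
  by_cases h1 : cl n m < cl n r
  · rw [E_supp m c (by omega), mul_zero]
  · rw [E_supp r m h1, zero_mul]

theorem EEE (r c : Fin n) : ∑ m, E K n r m * (E K n * E K n) m c = 0 := by
  refine Finset.sum_eq_zero fun m _ => ?_
  have := cl_le (n := n) r
  by_cases h1 : cl n m < cl n r
  · rw [EE_supp m c (by omega), mul_zero]
  · rw [E_supp r m h1, zero_mul]

theorem E_col (r c : Fin n) (h : 1 ≤ (c : ℕ)) :
    E K n r c = if (c : ℕ) ≤ aa n ∧ (r : ℕ) + c = n then 1 else 0 := by
  change (if (c : ℕ) = 0 ∧ Chi n r then (1 : K) else 0) +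
    (if 1 ≤ (c : ℕ) ∧ (c : ℕ) ≤ aa n ∧ (r : ℕ) + c = n then 1 else 0) = _
  rw [if_neg (by omega), zero_add]
  by_cases h1 : (c : ℕ) ≤ aa n ∧ (r : ℕ) + c = n
  · rw [if_pos h1, if_pos ⟨h, h1⟩]
  · rw [if_neg h1, if_neg (fun h2 => h1 h2.2)]

theorem E_mul_gm (hn : 3 ≤ n) (o : Fin n) (ho : (o : ℕ) = 0) :
    E K n * gm n K o = gm n K o * jordan n K := by
  have ha : aa n = (n - 1) / 2 := rfl
  refine Matrix.ext fun r c => ?_
  -- the right hand side
  have hR1 : ∀ c' : Fin n, (c' : ℕ) = c + 1 →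
      ((c : ℕ) = 0 ∨ (c : ℕ) = 1 ∨ (3 ≤ (c : ℕ) ∧ (c : ℕ) % 2 = 1)) →
      (gm n K o * jordan n K) r c = gm n K o r c' := by
    intro c' h1 h2
    rw [Matrix.mul_apply, Finset.sum_eq_single c']
    · rw [jordan, if_pos ⟨h1, h2⟩, mul_one]
    · intro m _ hm
      have : (m : ℕ) ≠ c + 1 := fun h => hm (Fin.ext (by omega))
      rw [jordan, if_neg (fun h => this h.1), mul_zero]
    · intro h; exact absurd (Finset.mem_univ _) h
  have hR2 : ¬ ((c : ℕ) + 1 < n ∧ ((c : ℕ) = 0 ∨ (c : ℕ) = 1 ∨ (3 ≤ (c : ℕ) ∧ (c : ℕ) % 2 = 1))) →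
      (gm n K o * jordan n K) r c = 0 := by
    intro h1
    rw [Matrix.mul_apply]
    refine Finset.sum_eq_zero fun m _ => ?_
    rw [jordan, if_neg (fun h => h1 ⟨by have := m.2; omega, h.2⟩), mul_zero]
  by_cases h0 : (c : ℕ) = 0
  · rw [hR1 ⟨1, by omega⟩ (by simp [h0]) (Or.inl h0)]
    rw [Matrix.mul_apply, Finset.sum_eq_single o]
    · simp [gm, h0, ho]
    · intro m _ hm
      have : (m : ℕ) ≠ 0 := fun h => hm (Fin.ext (by omega))
      simp [gm, h0, this]
    · intro h; exact absurd (Finset.mem_univ _) h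
  by_cases h1 : (c : ℕ) = 1
  · rw [hR1 ⟨2, by omega⟩ (by simp [h1]) (Or.inr (Or.inl h1))]
    have e1 : gm n K o r ⟨2, by omega⟩ = (E K n * E K n) r o := by simp [gm]
    rw [e1, Matrix.mul_apply, Matrix.mul_apply]
    refine Finset.sum_congr rfl fun m _ => ?_
    simp [gm, h1]
  by_cases h2 : (c : ℕ) = 2
  · rw [hR2 (by omega), ← EEE r o, Matrix.mul_apply]
    refine Finset.sum_congr rfl fun m _ => ?_
    simp [gm, h2]
  by_cases h3 : (c : ℕ) % 2 = 1
  · obtain ⟨m₀, hm₀⟩ : ∃ m₀ : Fin n, 2 * (m₀ : ℕ) = c + 1 := ⟨⟨(c + 1) / 2, by omega⟩, by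
      simp only []; omega⟩
    have e1 : (E K n * gm n K o) r c = E K n r m₀ := by
      rw [Matrix.mul_apply, Finset.sum_eq_single m₀]
      · simp [gm, h0, h1, h2, h3, hm₀]
      · intro m _ hm
        have : 2 * (m : ℕ) ≠ c + 1 := fun h => hm (Fin.ext (by omega))
        simp [gm, h0, h1, h2, h3, this]
      · intro h; exact absurd (Finset.mem_univ _) h
    rw [e1, E_col _ _ (by omega)]
    by_cases h4 : (c : ℕ) + 1 < n
    · rw [hR1 ⟨c + 1, h4⟩ rfl (Or.inr (Or.inr ⟨by omega, h3⟩))]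
      have e2 : gm n K o r ⟨c + 1, h4⟩ = if 2 * (n - (r : ℕ)) = c + 1 then 1 else 0 := by
        simp only [gm]
        rw [if_neg (by omega), if_neg (by omega), if_neg (by omega), if_neg (by omega)]
      rw [e2]
      have := r.2
      by_cases h5 : 2 * (n - (r : ℕ)) = c + 1
      · rw [if_pos h5, if_pos (by omega)]
      · rw [if_neg h5, if_neg (by omega)]
    · rw [hR2 (by omega), if_neg (by omega)]
  · obtain ⟨m₀, hm₀⟩ : ∃ m₀ : Fin n, 2 * (n - (m₀ : ℕ)) = c := ⟨⟨n - c / 2, by omega⟩, by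
      simp only []; omega⟩
    have e1 : (E K n * gm n K o) r c = E K n r m₀ := by
      rw [Matrix.mul_apply, Finset.sum_eq_single m₀]
      · simp [gm, h0, h1, h2, h3, hm₀]
      · intro m _ hm
        have : 2 * (n - (m : ℕ)) ≠ c := fun h => hm (Fin.ext (by omega))
        simp [gm, h0, h1, h2, h3, this]
      · intro h; exact absurd (Finset.mem_univ _) h
    rw [e1, E_col _ _ (by omega), hR2 (by omega), if_neg (by omega)]

theorem gm_det (hn : 3 ≤ n) (o : Fin n) (ho : (o : ℕ) = 0) : (gm n K o).det ≠ 0 := by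
  have ha : aa n = (n - 1) / 2 := rfl
  intro hdet
  obtain ⟨v, hv0, hv⟩ := Matrix.exists_mulVec_eq_zero_iff.2 hdet
  refine hv0 (funext fun c => ?_)
  have hrow : ∀ r : Fin n, ∑ c, gm n K o r c * v c = 0 := fun r => congrFun hv r
  -- a row which sees only one column
  have huse : ∀ r c : Fin n, gm n K o r c = 1 → (∀ c', c' ≠ c → gm n K o r c' * v c' = 0) →
      v c = 0 := by
    intro r c h1 h2
    have h := hrow r
    rw [Finset.sum_eq_single c] at h
    · rwa [h1, one_mul] at h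
    · intro m _ hm; exact h2 m hm
    · intro h; exact absurd (Finset.mem_univ _) h
  have hEoo : ∀ r : Fin n, cl n r ≤ 0 → E K n r o = 0 := fun r h => E_supp r o (by omega)
  have hclo : cl n (o : ℕ) = 0 := by unfold cl; rw [if_pos ho]
  obtain ⟨w, hw⟩ : ∃ w : Fin n, (w : ℕ) = 1 := ⟨⟨1, by omega⟩, rfl⟩
  obtain ⟨t, ht⟩ : ∃ t : Fin n, (t : ℕ) = 2 := ⟨⟨2, by omega⟩, rfl⟩
  obtain ⟨z, hz⟩ : ∃ z : Fin n, (z : ℕ) + 1 = n := ⟨⟨n - 1, by omega⟩, by simp only []; omega⟩
  have hclw : cl n (w : ℕ) = 1 := cl_one (by omega) (by omega)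
  have hEw : E K n w o = 1 := by
    change (if (o : ℕ) = 0 ∧ Chi n w then (1 : K) else 0) +
      (if 1 ≤ (o : ℕ) ∧ (o : ℕ) ≤ aa n ∧ (w : ℕ) + o = n then 1 else 0) = 1
    rw [if_pos ⟨ho, Or.inl ⟨by omega, by omega⟩⟩, if_neg (by omega), add_zero]
  have v0 : v o = 0 := by
    refine huse o o (by simp [gm, ho]) fun c' hc' => ?_
    have hc0 : (c' : ℕ) ≠ 0 := fun h => hc' (Fin.ext (by omega))
    have : gm n K o o c' = 0 := by
      simp only [gm]
      rw [if_neg hc0]
      split_ifs with h1 h2 h3 h4 h5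
      · exact E_supp o o (by omega)
      · exact EE_supp o o (by omega)
      · omega
      · rfl
      · omega
      · rfl
    rw [this, zero_mul]
  have v1 : v w = 0 := by
    refine huse w w (by simp [gm, hw, hEw]) fun c' hc' => ?_
    have hc1 : (c' : ℕ) ≠ 1 := fun h => hc' (Fin.ext (by omega))
    by_cases hc0 : (c' : ℕ) = 0
    · have : c' = o := Fin.ext (by omega)
      rw [this, v0, mul_zero]
    have : gm n K o w c' = 0 := by
      simp only [gm]
      rw [if_neg hc0, if_neg hc1]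
      split_ifs with h2 h3 h4 h5
      · exact EE_supp w o (by omega)
      · omega
      · rfl
      · omega
      · rfl
    rw [this, zero_mul]
  have hEEz : (E K n * E K n) z o = 1 := by
    have h1 : (E K n * E K n) z o = (E1 K n * E K n) z o + (E2 K n * E K n) z o := by
      conv_lhs => rw [show E K n * E K n = (E1 K n + E2 K n) * E K n from rfl, add_mul]
      rfl
    rw [h1, E1z (E K n) o z o ho, E2z (E K n) z w o (by omega) (by omega) (by omega), hEw,
      E_supp o o (by omega)]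
    simp
  have v2 : v t = 0 := by
    refine huse z t (by simp [gm, ht, hEEz]) fun c' hc' => ?_
    have hc2 : (c' : ℕ) ≠ 2 := fun h => hc' (Fin.ext (by omega))
    by_cases hc0 : (c' : ℕ) = 0
    · have : c' = o := Fin.ext (by omega)
      rw [this, v0, mul_zero]
    by_cases hc1 : (c' : ℕ) = 1
    · have : c' = w := Fin.ext (by omega)
      rw [this, v1, mul_zero]
    have : gm n K o z c' = 0 := by
      simp only [gm]
      rw [if_neg hc0, if_neg hc1, if_neg hc2]
      split_ifs with h3 h4 h5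
      · omega
      · rfl
      · omega
      · rfl
    rw [this, zero_mul]
  change v c = 0
  by_cases hc0 : (c : ℕ) = 0
  · have : c = o := Fin.ext (by omega)
    rw [this, v0]
  by_cases hc1 : (c : ℕ) = 1
  · have : c = w := Fin.ext (by omega)
    rw [this, v1]
  by_cases hc2 : (c : ℕ) = 2
  · have : c = t := Fin.ext (by omega)
    rw [this, v2]
  obtain ⟨r, hr⟩ : ∃ r : Fin n, if (c : ℕ) % 2 = 1 then 2 * (r : ℕ) = c + 1
      else 2 * (n - (r : ℕ)) = c := by
    by_cases h3 : (c : ℕ) % 2 = 1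
    · refine ⟨⟨(c + 1) / 2, by omega⟩, ?_⟩
      rw [if_pos h3]
      simp only []
      omega
    · refine ⟨⟨n - c / 2, by omega⟩, ?_⟩
      rw [if_neg h3]
      simp only []
      omega
  refine huse r c ?_ fun c' hc' => ?_
  · simp only [gm]
    rw [if_neg hc0, if_neg hc1, if_neg hc2]
    by_cases h3 : (c : ℕ) % 2 = 1
    · rw [if_pos h3] at hr
      rw [if_pos h3, if_pos hr]
    · rw [if_neg h3] at hr
      rw [if_neg h3, if_pos hr]
  · have hcc : (c' : ℕ) ≠ c := fun h => hc' (Fin.ext h)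
    by_cases hd0 : (c' : ℕ) = 0
    · have : c' = o := Fin.ext (by omega)
      rw [this, v0, mul_zero]
    by_cases hd1 : (c' : ℕ) = 1
    · have : c' = w := Fin.ext (by omega)
      rw [this, v1, mul_zero]
    by_cases hd2 : (c' : ℕ) = 2
    · have : c' = t := Fin.ext (by omega)
      rw [this, v2, mul_zero]
    have : gm n K o r c' = 0 := by
      simp only [gm]
      rw [if_neg hd0, if_neg hd1, if_neg hd2]
      have h5 := c.2
      have h6 := c'.2
      split_ifs with h3 h4 h4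
      · exfalso
        split_ifs at hr <;> omega
      · rfl
      · exfalso
        split_ifs at hr <;> omega
      · rfl
    rw [this, zero_mul]

theorem orbit (hn : 3 ≤ n) : InOrbit (E K n) := by
  obtain ⟨o, ho⟩ : ∃ o : Fin n, (o : ℕ) = 0 := ⟨⟨0, by omega⟩, rfl⟩
  have hdet : IsUnit (gm n K o).det := isUnit_iff_ne_zero.2 (gm_det hn o ho)
  refine ⟨gm n K o, (gm n K o)⁻¹,
    ⟨Matrix.mul_nonsing_inv _ hdet, Matrix.nonsing_inv_mul _ hdet⟩, ?_⟩
  rw [← E_mul_gm hn o ho, mul_assoc, Matrix.mul_nonsing_inv _ hdet, mul_one]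

/-! ### Minimality -/

theorem finrank_pa [CharZero K] (hn : 3 ≤ n) :
    Module.finrank K (pa n K) + 1 ≤ Module.finrank K (supp K (SP n)) := by
  let f : (pa n K × K) →ₗ[K] supp K (SP n) :=
    { toFun := fun q => ⟨q.1.1 + q.2 • 1,
        (inP_iff _).1 (inP_add ((mem_pa _).1 q.1.2).1 (inP_smul_one _))⟩
      map_add' := fun q q' => by
        refine Subtype.ext ?_
        change q.1.1 + q'.1.1 + (q.2 + q'.2) • 1 = (q.1.1 + q.2 • 1) + (q'.1.1 + q'.2 • 1)
        rw [add_smul]; abel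
      map_smul' := fun t q => by
        refine Subtype.ext ?_
        change t • q.1.1 + (t • q.2) • 1 = t • (q.1.1 + q.2 • 1)
        rw [smul_add, smul_smul, smul_eq_mul] }
  have hf : Function.Injective f := by
    intro q q' h
    have h1 : q.1.1 + q.2 • (1 : Matrix (Fin n) (Fin n) K) = q'.1.1 + q'.2 • 1 :=
      congrArg Subtype.val h
    have h2 := congrArg Matrix.trace h1
    rw [Matrix.trace_add, Matrix.trace_add, ((mem_pa _).1 q.1.2).2, ((mem_pa _).1 q'.1.2).2,
      zero_add, zero_add] at h2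
    have h3 : Matrix.trace ((q.2 - q'.2) • (1 : Matrix (Fin n) (Fin n) K)) = 0 := by
      rw [sub_smul, Matrix.trace_sub, h2, sub_self]
    have h4 := sub_eq_zero.1 (scalar_zero hn _ h3)
    rw [h4] at h1
    exact Prod.ext (Subtype.ext (add_right_cancel h1)) h4
  have := LinearMap.finrank_le_finrank_of_injective hf
  rwa [Module.finrank_prod, Module.finrank_self] at this

theorem inf_trace (S : Submodule K (Matrix (Fin n) (Fin n) K)) :
    Module.finrank K S ≤ Module.finrank K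
      (S ⊓ LinearMap.ker (Matrix.traceLinearMap (Fin n) K K) : Submodule K _) + 1 := by
  have h1 := Submodule.finrank_sup_add_finrank_inf_eq S
    (LinearMap.ker (Matrix.traceLinearMap (Fin n) K K))
  have h2 := LinearMap.finrank_range_add_finrank_ker (Matrix.traceLinearMap (Fin n) K K)
  have h3 : Module.finrank K (LinearMap.range (Matrix.traceLinearMap (Fin n) K K)) ≤ 1 := by
    have := Submodule.finrank_le (LinearMap.range (Matrix.traceLinearMap (Fin n) K K))
    rwa [Module.finrank_self] at this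
  have h4 := Submodule.finrank_le (S ⊔ LinearMap.ker (Matrix.traceLinearMap (Fin n) K K))
  omega

theorem exists_trace_form (ζ : Matrix (Fin n) (Fin n) K →ₗ[K] K) :
    ∃ Y : Matrix (Fin n) (Fin n) K, ∀ x, ζ x = Matrix.trace (Y * x) := by
  obtain ⟨Y, hY⟩ : ∃ Y : Matrix (Fin n) (Fin n) K, ∀ i j, Y i j = ζ (Matrix.single j i 1) :=
    ⟨fun i j => ζ (Matrix.single j i 1), fun _ _ => rfl⟩
  refine ⟨Y, fun x => ?_⟩
  have h1 : Matrix.trace (Y * x) = ∑ i, ∑ j, Y i j * x j i := rfl
  rw [h1]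
  conv_lhs => rw [Matrix.matrix_eq_sum_single x]
  rw [map_sum, Finset.sum_comm]
  refine Finset.sum_congr rfl fun i _ => ?_
  rw [map_sum]
  refine Finset.sum_congr rfl fun j _ => ?_
  have : Matrix.single i j (x i j) = x i j • Matrix.single i j (1 : K) := by
    rw [Matrix.smul_single, smul_eq_mul, mul_one]
  rw [this, map_smul, smul_eq_mul, mul_comm, hY]

/-- the bilinear map `(x, y) ↦ ξ([x, y])` -/
noncomputable def form (ξ : Matrix (Fin n) (Fin n) K →ₗ[K] K) :
    Matrix (Fin n) (Fin n) K →ₗ[K] Matrix (Fin n) (Fin n) K →ₗ[K] K :=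
  LinearMap.mk₂ K (fun x y => ξ (x * y - y * x))
    (fun x y z => by
      rw [← map_add]; congr 1; noncomm_ring)
    (fun t x y => by
      rw [← map_smul]; congr 1; rw [smul_mul_assoc, mul_smul_comm, smul_sub])
    (fun x y z => by
      rw [← map_add]; congr 1; noncomm_ring)
    (fun t x y => by
      rw [← map_smul]; congr 1; rw [smul_mul_assoc, mul_smul_comm, smul_sub])

theorem lower [CharZero K] (q : Submodule K (Matrix (Fin n) (Fin n) K)) (hP : IsParabolic q)
    (hF : IsFrobenius q) : n * (n + 1) + 2 * ((n + 1) / 2) ≤ 2 * Module.finrank K q + 4 := by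
  obtain ⟨_, g, h, ⟨hgh, hhg⟩, hq⟩ := hP
  obtain ⟨ξ, hξ⟩ := hF
  -- the traceless upper triangular matrices
  obtain ⟨T0, hT0⟩ : ∃ T0 : Submodule K (Matrix (Fin n) (Fin n) K),
    T0 = T K n ⊓ LinearMap.ker (Matrix.traceLinearMap (Fin n) K K) := ⟨_, rfl⟩
  have hmem : ∀ x : Matrix (Fin n) (Fin n) K, x ∈ T0 ↔ x ∈ T K n ∧ Matrix.trace x = 0 := by
    intro x; rw [hT0]; exact Iff.rfl
  have hback : ∀ x : Matrix (Fin n) (Fin n) K, h * (g * x * h) * g = x := by
    intro x
    have : h * (g * x * h) * g = (h * g) * x * (h * g) := by noncomm_ring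
    rw [this, hhg, one_mul, mul_one]
  have hj : ∀ x : T0, g * x.1 * h ∈ q := by
    intro x
    refine hq _ ⟨?_, fun i j hij => ?_⟩
    · rw [Matrix.trace_mul_comm, ← mul_assoc, hhg, one_mul]
      exact ((hmem _).1 x.2).2
    · rw [hback]
      exact ((hmem _).1 x.2).1 i j (not_le.2 hij)
  let j : T0 →ₗ[K] q :=
    { toFun := fun x => ⟨g * x.1 * h, hj x⟩
      map_add' := fun x y => by
        refine Subtype.ext ?_
        change g * (x.1 + y.1) * h = g * x.1 * h + g * y.1 * h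
        rw [mul_add, add_mul]
      map_smul' := fun t x => by
        refine Subtype.ext ?_
        change g * (t • x.1) * h = t • (g * x.1 * h)
        rw [mul_smul_comm, smul_mul_assoc] }
  have hjinj : Function.Injective j := by
    intro x y hxy
    have h1 : g * x.1 * h = g * y.1 * h := congrArg Subtype.val hxy
    have h2 := hback x.1
    rw [h1, hback] at h2
    exact Subtype.ext h2.symm
  obtain ⟨ζ, hζ⟩ := LinearMap.exists_extend (ξ ∘ₗ q.subtype ∘ₗ j)
  have hζ' : ∀ x : T0, ζ x.1 = ξ (g * x.1 * h) := fun x => LinearMap.congr_fun hζ x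
  obtain ⟨Y, hY⟩ := exists_trace_form ζ
  -- the radical
  obtain ⟨R', hR'⟩ : ∃ R' : Submodule K (Matrix (Fin n) (Fin n) K),
    R' = (LinearMap.ker (Phi Y)).map (T K n).subtype := ⟨_, rfl⟩
  have hR'mem : ∀ x ∈ R', x ∈ T K n ∧ ∀ r c, c ≤ r → (Y * x - x * Y) r c = 0 := by
    intro x hx
    rw [hR'] at hx
    obtain ⟨u, hu, rfl⟩ := hx
    exact ⟨u.2, (mem_ker_Phi _ _).1 hu⟩
  have hR'dim : (n + 1) / 2 ≤ Module.finrank K R' := by
    rw [hR', ← (Submodule.equivMapOfInjective (T K n).subtype (T K n).subtype_injective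
      (LinearMap.ker (Phi Y))).finrank_eq]
    exact radical_ge n Y
  have hR0 := inf_trace R'
  have hT1 := inf_trace (T K n)
  rw [← hT0, finrank_supp] at hT1
  have hN := card_le_pairs n
  have hT1' : Nat.card {p : Fin n × Fin n // p.1 ≤ p.2} ≤ Module.finrank K T0 + 1 := hT1
  obtain ⟨R0, hR0def⟩ : ∃ R0 : Submodule K (Matrix (Fin n) (Fin n) K),
    R0 = R' ⊓ LinearMap.ker (Matrix.traceLinearMap (Fin n) K K) := ⟨_, rfl⟩
  rw [← hR0def] at hR0
  have hR0mem : ∀ x : Matrix (Fin n) (Fin n) K, x ∈ R0 ↔ x ∈ R' ∧ Matrix.trace x = 0 := by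
    intro x; rw [hR0def]; exact Iff.rfl
  have hR0T : ∀ x : R0, x.1 ∈ T0 := fun x =>
    (hmem _).2 ⟨(hR'mem _ ((hR0mem _).1 x.2).1).1, ((hR0mem _).1 x.2).2⟩
  have hR0c : ∀ x : R0, ∀ r c, c ≤ r → (Y * x.1 - x.1 * Y) r c = 0 := fun x =>
    (hR'mem _ ((hR0mem _).1 x.2).1).2
  have hR0le : R0 ≤ T0 := fun x hx => hR0T ⟨x, hx⟩
  obtain ⟨Ψ, hΨ⟩ : ∃ Ψ : R0 →ₗ[K] Module.Dual K q,
      ∀ x : R0, ∀ w : q, Ψ x w = ξ (g * x.1 * h * w.1 - w.1 * (g * x.1 * h)) :=
    ⟨q.subtype.dualMap ∘ₗ form ξ ∘ₗ q.subtype ∘ₗ j ∘ₗ Submodule.inclusion hR0le, fun _ _ => rfl⟩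
  have hΨinj : Function.Injective Ψ := by
    rw [injective_iff_map_eq_zero]
    intro x hx
    have h1 := hξ (g * x.1 * h) (hj ⟨x.1, hR0T x⟩) fun w hw => by
      rw [← hΨ x ⟨w, hw⟩, hx]; rfl
    have h2 : j ⟨x.1, hR0T x⟩ = j 0 := by rw [map_zero]; exact Subtype.ext h1
    have h3 := congrArg Subtype.val (hjinj h2)
    exact Subtype.ext h3
  have hΨann : LinearMap.range Ψ ≤ (LinearMap.range j).dualAnnihilator := by
    rintro _ ⟨x, rfl⟩
    rw [Submodule.mem_dualAnnihilator]
    rintro _ ⟨y, rfl⟩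
    rw [hΨ]
    have hbr : x.1 * y.1 - y.1 * x.1 ∈ T0 := by
      rw [hmem]
      refine ⟨sub_mem (upper_mul ((hmem _).1 (hR0T x)).1 ((hmem _).1 y.2).1)
        (upper_mul ((hmem _).1 y.2).1 ((hmem _).1 (hR0T x)).1), ?_⟩
      rw [Matrix.trace_sub, Matrix.trace_mul_comm, sub_self]
    have h1 : g * x.1 * h * (g * y.1 * h) - g * y.1 * h * (g * x.1 * h) =
        g * (x.1 * y.1 - y.1 * x.1) * h := by
      have e1 : g * x.1 * h * (g * y.1 * h) = g * x.1 * (h * g) * y.1 * h := by noncomm_ring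
      have e2 : g * y.1 * h * (g * x.1 * h) = g * y.1 * (h * g) * x.1 * h := by noncomm_ring
      rw [e1, e2, hhg]
      noncomm_ring
    change ξ (g * x.1 * h * (g * y.1 * h) - g * y.1 * h * (g * x.1 * h)) = 0
    rw [h1, ← hζ' ⟨_, hbr⟩, hY]
    have e1 : Matrix.trace (Y * (x.1 * y.1 - y.1 * x.1)) =
        Matrix.trace ((Y * x.1 - x.1 * Y) * y.1) := by
      have e3 : Y * (x.1 * y.1 - y.1 * x.1) = Y * x.1 * y.1 - Y * y.1 * x.1 := by noncomm_ring
      have e4 : (Y * x.1 - x.1 * Y) * y.1 = Y * x.1 * y.1 - x.1 * (Y * y.1) := by noncomm_ring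
      rw [e3, e4, Matrix.trace_sub, Matrix.trace_sub, Matrix.trace_mul_comm (Y * y.1) x.1]
    change Matrix.trace (Y * (x.1 * y.1 - y.1 * x.1)) = 0
    rw [e1]
    refine Finset.sum_eq_zero fun r _ => ?_
    change ((Y * x.1 - x.1 * Y) * y.1) r r = 0
    rw [Matrix.mul_apply]
    refine Finset.sum_eq_zero fun c _ => ?_
    by_cases hcr : c ≤ r
    · rw [hR0c x r c hcr, zero_mul]
    · rw [((hmem _).1 y.2).1 c r hcr, mul_zero]
  have h1 : Module.finrank K R0 ≤ Module.finrank K (LinearMap.range j).dualAnnihilator := by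
    rw [← LinearMap.finrank_range_of_inj hΨinj]
    exact Submodule.finrank_mono hΨann
  have h2 := Subspace.finrank_add_finrank_dualAnnihilator_eq (LinearMap.range j)
  rw [LinearMap.finrank_range_of_inj hjinj] at h2
  omega

end Pool.Agent.Results.MP_8024d7_al.ParabolicComplements

open Pool.Agent.Results.MP_8024d7_al.ParabolicComplements in
/-- For every `n ≥ 3` (`K` a field of characteristic `0`) there are an element `e` of the orbit
`O(λ)` and a Frobenius parabolic subalgebra `p` of `sl_n` of minimal dimension such that `sl_n` is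
the direct sum of the centraliser of `e` and `p`. -/
theorem Pool.Agent.Results.MP_8024d7_al.ParabolicComplements.result (K : Type*) [Field K]
    [CharZero K] (n : ℕ) (hn : 3 ≤ n) :
    ∃ (e : Matrix (Fin n) (Fin n) K) (p : Submodule K (Matrix (Fin n) (Fin n) K)),
      InOrbit e ∧ IsMinimalFrobeniusParabolic p ∧ IsComplement e p := by
  refine ⟨Pool.Agent.Q21.FPc.E K n, pa n K, orbit hn, ⟨parab, frob hn, fun q h1 h2 => ?_⟩,
    compl hn⟩
  have h3 := lower q h1 h2
  have h4 := finrank_pa (K := K) hn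
  have h5 := (Pool.Agent.Q21.FPc.dims (K := K) hn).2
  have h6 : Pool.Agent.Q21.FPc.aa n = (n - 1) / 2 := rfl
  omega
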